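import Pool.Agent.Lib.MP_188a32_co.Moves

/-!
# Task E: replacing an overpass of a knot by another one
-/

set_option autoImplicit false

namespace Pool.Agent.LinKnot.H74

open scoped Classical Topology
open Filter

/-- The point at height `H` over the origin. -/
def Z (H : ℝ) : R3 := ![0, 0, H]

@[simp] lemma Z_zero (H : ℝ) : Z H 0 = 0 := rfl
@[simp] lemma Z_one (H : ℝ) : Z H 1 = 0 := rfl
@[simp] lemma Z_two (H : ℝ) : Z H 2 = H := rfl

lemma isCompact_seg (e : R3 × R3) : IsCompact (seg e) := by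
  have : seg e = convexHull ℝ {e.1, e.2} := by
    unfold seg; rw [convexHull_pair]
  rw [this]
  exact (Set.toFinite _).isCompact_convexHull ℝ

lemma proj_eq_iff {p q : R3} : proj p = proj q ↔ p 0 = q 0 ∧ p 1 = q 1 := by
  unfold proj; simp [Prod.ext_iff]

/-- Points of the triangle with apex `z`. -/
lemma mem_tri {a b z r : R3} (h : r ∈ convexHull ℝ {a, b, z}) :
    ∃ q ∈ seg (a, b), ∃ t : ℝ, 0 ≤ t ∧ t ≤ 1 ∧ r = (1 - t) • q + t • z := by
  have h1 : ({a, b, z} : Set R3) = insert z {a, b} := by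
    ext p; simp only [Set.mem_insert_iff, Set.mem_singleton_iff]; tauto
  rw [h1, convexHull_insert (by simp), mem_convexJoin] at h
  obtain ⟨z', hz', q, hq, hr⟩ := h
  rw [Set.mem_singleton_iff] at hz'
  subst hz'
  rw [convexHull_pair] at hq
  obtain ⟨s, t, hs, ht, hst, rfl⟩ := hr
  refine ⟨q, hq, s, hs, by linarith, ?_⟩
  rw [show t = 1 - s by linarith, add_comm]

lemma exists_bound (S : Set R3) (hS : IsCompact S) : ∃ C : ℝ, 1 ≤ C ∧ ∀ p ∈ S, ∀ i, |p i| ≤ C := by
  obtain ⟨C, hC⟩ := hS.isBounded.exists_norm_le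
  refine ⟨max C 1, le_max_right _ _, fun p hp i => ?_⟩
  exact (norm_le_pi_norm p i).trans ((hC p hp).trans (le_max_left _ _))

/-- Disjoint segments. -/
lemma far {e f : R3 × R3} (hab : Above e f) (hd : Disjoint (seg e) (seg f)) :
    ∀ᶠ H in atTop, ∀ r ∈ seg f, r ∉ convexHull ℝ {e.1, e.2, Z H} := by
  set φ : R3 × R3 → ℝ := fun x => |x.1 0 - x.2 0| + |x.1 1 - x.2 1| + max 0 (x.1 2 - x.2 2) with hφ
  have hcont : Continuous φ := by
    rw [hφ]; fun_prop
  have hne : (seg e ×ˢ seg f).Nonempty := ⟨(e.1, f.1), left_mem_seg _, left_mem_seg _⟩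
  obtain ⟨x₀, hx₀, hmin⟩ := ((isCompact_seg e).prod (isCompact_seg f)).exists_isMinOn hne
    hcont.continuousOn
  have hpos : 0 < φ x₀ := by
    by_contra hcon
    have h0 : 0 ≤ |x₀.1 0 - x₀.2 0| := abs_nonneg _
    have h1 : 0 ≤ |x₀.1 1 - x₀.2 1| := abs_nonneg _
    have h2 : 0 ≤ max 0 (x₀.1 2 - x₀.2 2) := le_max_left _ _
    have h3 : x₀.1 2 - x₀.2 2 ≤ max 0 (x₀.1 2 - x₀.2 2) := le_max_right _ _
    have hle : |x₀.1 0 - x₀.2 0| + |x₀.1 1 - x₀.2 1| + max 0 (x₀.1 2 - x₀.2 2) ≤ 0 := not_lt.1 hcon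
    have e0 : |x₀.1 0 - x₀.2 0| = 0 := by linarith
    have e1 : |x₀.1 1 - x₀.2 1| = 0 := by linarith
    have e0' := abs_eq_zero.1 e0
    have e1' := abs_eq_zero.1 e1
    rcases hab x₀.1 hx₀.1 x₀.2 hx₀.2 (proj_eq_iff.2 ⟨by linarith, by linarith⟩) with h | h
    · linarith
    · exact Set.disjoint_left.1 hd hx₀.1 (h ▸ hx₀.2)
  obtain ⟨C, hC1, hC⟩ := exists_bound (seg e ∪ seg f) ((isCompact_seg e).union (isCompact_seg f))
  filter_upwards [eventually_gt_atTop (C + 4 * C ^ 2 / φ x₀)] with H hH r hr hmem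
  obtain ⟨q, hq, t, ht0, ht1, rfl⟩ := mem_tri hmem
  have hq0 := hC q (Or.inl hq) 0
  have hq1 := hC q (Or.inl hq) 1
  have hq2 := hC q (Or.inl hq) 2
  have hr2 := hC _ (Or.inr hr) 2
  have hm : φ x₀ ≤ φ (q, (1 - t) • q + t • Z H) := hmin ⟨hq, hr⟩
  simp only [hφ, Pi.add_apply, Pi.smul_apply, smul_eq_mul, Z_zero, Z_one, Z_two] at hm hr2
  have hCC : 0 ≤ 4 * C ^ 2 / φ x₀ := by positivity
  have hHC : C < H := by linarith
  rw [show q 0 - ((1 - t) * q 0 + t * 0) = t * q 0 by ring,
    show q 1 - ((1 - t) * q 1 + t * 0) = t * q 1 by ring,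
    show q 2 - ((1 - t) * q 2 + t * H) = t * (q 2 - H) by ring, abs_mul, abs_mul,
    abs_of_nonneg ht0] at hm
  have hq2' := (abs_le.1 hq2)
  rw [max_eq_left (mul_nonpos_of_nonneg_of_nonpos ht0 (by linarith))] at hm
  have hr2' := (abs_le.1 hr2).2
  have h1 : t * (H - C) ≤ 2 * C := by
    have : t * (H - C) ≤ t * (H - q 2) := mul_le_mul_of_nonneg_left (by linarith) ht0
    nlinarith
  have h2 : φ x₀ ≤ 2 * C * t := by
    have a1 : t * |q 0| ≤ t * C := mul_le_mul_of_nonneg_left hq0 ht0
    have a2 : t * |q 1| ≤ t * C := mul_le_mul_of_nonneg_left hq1 ht0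
    have : φ x₀ = |x₀.1 0 - x₀.2 0| + |x₀.1 1 - x₀.2 1| + max 0 (x₀.1 2 - x₀.2 2) := rfl
    rw [this]; linarith
  have h3 : 4 * C ^ 2 < φ x₀ * (H - C) := by
    have : 4 * C ^ 2 / φ x₀ < H - C := by linarith
    rw [div_lt_iff₀ hpos] at this
    linarith
  have h4 : φ x₀ * (H - C) ≤ 2 * C * (t * (H - C)) := by
    have := mul_le_mul_of_nonneg_right h2 (by linarith : (0:ℝ) ≤ H - C)
    linarith
  have h5 : 2 * C * (t * (H - C)) ≤ 2 * C * (2 * C) := mul_le_mul_of_nonneg_left h1 (by linarith)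
  nlinarith

/-- Segments with a common end. -/
lemma near {v a b : R3} (ha : proj v ≠ proj a) (hb : b ≠ v) (hab : Above (v, a) (v, b))
    (hd : seg (v, a) ∩ seg (v, b) ⊆ {v}) :
    ∀ᶠ H in atTop, convexHull ℝ {v, a, Z H} ∩ seg (v, b) ⊆ {v} := by
  -- the cone property
  have hcone : ∀ l : ℝ, 0 ≤ l → l * (a 0 - v 0) = b 0 - v 0 → l * (a 1 - v 1) = b 1 - v 1 →
      b 2 - v 2 < l * (a 2 - v 2) := by
    intro l hl h0 h1
    have hc : (0:ℝ) < 1 / (1 + l) := by positivity
    set c := 1 / (1 + l) with hcdef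
    have hc1 : c ≤ 1 := by
      rw [hcdef, div_le_one (by linarith)]; linarith
    have hcl : c * l ≤ 1 := by
      rw [hcdef, div_mul_eq_mul_div, div_le_one (by linarith)]; linarith
    have hp : v + (c * l) • (a - v) ∈ seg (v, a) := by
      refine ⟨1 - c * l, c * l, by linarith, by positivity, by ring, ?_⟩
      simp only; module
    have hq : v + c • (b - v) ∈ seg (v, b) := by
      refine ⟨1 - c, c, by linarith, by positivity, by ring, ?_⟩
      simp only; module
    rcases hab _ hp _ hq (by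
      rw [proj_eq_iff]
      simp only [Pi.add_apply, Pi.smul_apply, Pi.sub_apply, smul_eq_mul]
      constructor
      · rw [mul_assoc, h0]
      · rw [mul_assoc, h1]) with h | h
    · simp only [Pi.add_apply, Pi.smul_apply, Pi.sub_apply, smul_eq_mul] at h
      have h' : c * (b 2 - v 2) < c * (l * (a 2 - v 2)) := by rw [← mul_assoc]; linarith
      exact lt_of_mul_lt_mul_left h' hc.le
    · exfalso
      have hv : v + c • (b - v) = v := by
        have := hd ⟨h ▸ hp, hq⟩
        simpa using this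
      have : c • (b - v) = 0 := by simpa using hv
      rcases smul_eq_zero.1 this with h' | h'
      · exact hc.ne' h'
      · exact hb (sub_eq_zero.1 h')
  -- constants
  have hn : 0 < |a 0 - v 0| + |a 1 - v 1| := by
    by_contra hcon
    have h0 : 0 ≤ |a 0 - v 0| := abs_nonneg _
    have h1 : 0 ≤ |a 1 - v 1| := abs_nonneg _
    have e0' := abs_eq_zero.1 (show |a 0 - v 0| = 0 by linarith)
    have e1' := abs_eq_zero.1 (show |a 1 - v 1| = 0 by linarith)
    exact ha (proj_eq_iff.2 ⟨by linarith, by linarith⟩)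
  set n := |a 0 - v 0| + |a 1 - v 1| with hndef
  obtain ⟨C, hC1, hC⟩ := exists_bound ({a - v, b - v, v} : Set R3) (Set.toFinite _).isCompact
  have hA := hC (a - v) (by simp)
  have hB := hC (b - v) (by simp)
  have hV := hC v (by simp)
  simp only [Pi.sub_apply] at hA hB
  set ψ : ℝ → ℝ := fun l => |b 0 - v 0 - l * (a 0 - v 0)| + |b 1 - v 1 - l * (a 1 - v 1)| +
    max 0 (l * (a 2 - v 2) - (b 2 - v 2)) with hψ
  have hcont : Continuous ψ := by
    rw [hψ]; fun_prop
  obtain ⟨l₀, hl₀, hmin⟩ := (isCompact_Icc (a := (0:ℝ)) (b := 4 * C / n)).exists_isMinOn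
    ⟨0, le_rfl, by positivity⟩ hcont.continuousOn
  have hpos : 0 < ψ l₀ := by
    by_contra hcon
    have h0 : 0 ≤ |b 0 - v 0 - l₀ * (a 0 - v 0)| := abs_nonneg _
    have h1 : 0 ≤ |b 1 - v 1 - l₀ * (a 1 - v 1)| := abs_nonneg _
    have h2 : 0 ≤ max 0 (l₀ * (a 2 - v 2) - (b 2 - v 2)) := le_max_left _ _
    have h3 : l₀ * (a 2 - v 2) - (b 2 - v 2) ≤ max 0 (l₀ * (a 2 - v 2) - (b 2 - v 2)) :=
      le_max_right _ _
    have hle : |b 0 - v 0 - l₀ * (a 0 - v 0)| + |b 1 - v 1 - l₀ * (a 1 - v 1)| +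
      max 0 (l₀ * (a 2 - v 2) - (b 2 - v 2)) ≤ 0 := not_lt.1 hcon
    have e0 := abs_eq_zero.1 (show |b 0 - v 0 - l₀ * (a 0 - v 0)| = 0 by linarith)
    have e1 := abs_eq_zero.1 (show |b 1 - v 1 - l₀ * (a 1 - v 1)| = 0 by linarith)
    have := hcone l₀ hl₀.1 (by linarith) (by linarith)
    linarith
  have hD : 0 < C + 2 * C ^ 2 / n := by positivity
  filter_upwards [eventually_gt_atTop (C + 2 * C ^ 2 / n +
    (C + 2 * C ^ 2 / n) * (1 + 2 * C / ψ l₀))] with H hH
  rintro r ⟨hr, ⟨s', s, hs', hs, hss, hrs⟩⟩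
  obtain ⟨q, ⟨m', m, hm', hm, hmm, hq⟩, t, ht0, ht1, hrt⟩ := mem_tri hr
  simp only at hrs hq
  have hs'1 : s' = 1 - s := by linarith
  have hm'1 : m' = 1 - m := by linarith
  subst hs'1 hm'1
  simp only [Set.mem_singleton_iff]
  by_contra hrv
  have hspos : 0 < s := by
    rcases hs.lt_or_eq with h | h
    · exact h
    · exfalso; apply hrv; rw [← hrs, ← h]; simp
  -- coordinates
  have hco : ∀ i, s * (b i - v i) = ((1 - t) * m) * (a i - v i) + t * (Z H i - v i) := by
    intro i
    have h1 : r i = (1 - s) * v i + s * b i := by rw [← hrs]; simp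
    have h2 : r i = (1 - t) * ((1 - m) * v i + m * a i) + t * Z H i := by
      rw [hrt, ← hq]; simp only [Pi.add_apply, Pi.smul_apply, smul_eq_mul]
    linarith
  set β := (1 - t) * m / s with hβ
  set γ := t / s with hγ
  have hβ0 : 0 ≤ β := by
    rw [hβ]; exact div_nonneg (mul_nonneg (by linarith) hm) hs
  have hγ0 : 0 ≤ γ := div_nonneg ht0 hs
  have hco' : ∀ i, b i - v i = β * (a i - v i) + γ * (Z H i - v i) := by
    intro i
    have := hco i
    rw [hβ, hγ]
    field_simp
    linarith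
  have c0 := hco' 0
  have c1 := hco' 1
  have c2 := hco' 2
  simp only [Z_zero, Z_one, Z_two, zero_sub] at c0 c1 c2
  -- bound for `β`
  have hβn : β * n ≤ 2 * C * (1 + γ) := by
    have e0 : β * |a 0 - v 0| = |b 0 - v 0 + γ * v 0| := by
      rw [show b 0 - v 0 + γ * v 0 = β * (a 0 - v 0) by linarith, abs_mul, abs_of_nonneg hβ0]
    have e1 : β * |a 1 - v 1| = |b 1 - v 1 + γ * v 1| := by
      rw [show b 1 - v 1 + γ * v 1 = β * (a 1 - v 1) by linarith, abs_mul, abs_of_nonneg hβ0]
    have f0 : |b 0 - v 0 + γ * v 0| ≤ C + γ * C := by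
      refine (abs_add_le _ _).trans (add_le_add (hB 0) ?_)
      rw [abs_mul, abs_of_nonneg hγ0]
      exact mul_le_mul_of_nonneg_left (hV 0) hγ0
    have f1 : |b 1 - v 1 + γ * v 1| ≤ C + γ * C := by
      refine (abs_add_le _ _).trans (add_le_add (hB 1) ?_)
      rw [abs_mul, abs_of_nonneg hγ0]
      exact mul_le_mul_of_nonneg_left (hV 1) hγ0
    rw [hndef, mul_add, e0, e1]
    linarith
  have hβ1 : β ≤ 2 * C * (1 + γ) / n := by
    rw [le_div_iff₀ hn]; exact hβn
  have hγ1 : γ * (H - (C + 2 * C ^ 2 / n)) ≤ C + 2 * C ^ 2 / n := by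
    have hb2 := (abs_le.1 (hB 2)).2
    have ha2 := (abs_le.1 (hA 2)).1
    have hv2 := (abs_le.1 (hV 2)).2
    have i1 : γ * (H - C) ≤ γ * (H - v 2) := mul_le_mul_of_nonneg_left (by linarith) hγ0
    have i2 : - (β * (a 2 - v 2)) ≤ β * C := by
      rw [← mul_neg]
      exact mul_le_mul_of_nonneg_left (by linarith) hβ0
    have i3 : β * C ≤ 2 * C * (1 + γ) / n * C := mul_le_mul_of_nonneg_right hβ1 (by linarith)
    have i4 : 2 * C * (1 + γ) / n * C = 2 * C ^ 2 / n + γ * (2 * C ^ 2 / n) := by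
      field_simp
    nlinarith
  have hratio : 0 < 2 * C / ψ l₀ := by positivity
  have hH' : (C + 2 * C ^ 2 / n) * (1 + 2 * C / ψ l₀) < H - (C + 2 * C ^ 2 / n) := by linarith
  have hγlt : γ < 1 := by
    by_contra hcon
    have h1 : 1 ≤ γ := not_lt.1 hcon
    have h2 : H - (C + 2 * C ^ 2 / n) ≤ γ * (H - (C + 2 * C ^ 2 / n)) :=
      le_mul_of_one_le_left (le_trans (by positivity) hH'.le) h1
    nlinarith
  have hβ2 : β ≤ 4 * C / n := by
    refine hβ1.trans ?_
    rw [div_le_div_iff_of_pos_right hn]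
    nlinarith
  have hm1 : ψ l₀ ≤ ψ β := hmin ⟨hβ0, hβ2⟩
  have hψβ : ψ β ≤ 2 * C * γ := by
    simp only [hψ]
    rw [show b 0 - v 0 - β * (a 0 - v 0) = - (γ * v 0) by linarith,
      show b 1 - v 1 - β * (a 1 - v 1) = - (γ * v 1) by linarith,
      show β * (a 2 - v 2) - (b 2 - v 2) = - (γ * (H - v 2)) by linarith, abs_neg, abs_neg,
      abs_mul, abs_mul, abs_of_nonneg hγ0]
    have hv2 := (abs_le.1 (hV 2)).2
    have hHC : C < H := by
      have : 0 < (C + 2 * C ^ 2 / n) * (1 + 2 * C / ψ l₀) := by positivity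
      have h2 : 0 ≤ 2 * C ^ 2 / n := by positivity
      linarith
    rw [max_eq_left (by
      have : 0 ≤ γ * (H - v 2) := mul_nonneg hγ0 (by linarith)
      linarith)]
    have j0 := mul_le_mul_of_nonneg_left (hV 0) hγ0
    have j1 := mul_le_mul_of_nonneg_left (hV 1) hγ0
    linarith
  have hfin : ψ l₀ ≤ 2 * C * γ := hm1.trans hψβ
  have hγ2 : ψ l₀ / (2 * C) ≤ γ := by
    rw [div_le_iff₀ (by linarith)]; linarith
  have hk : ψ l₀ / (2 * C) * ((C + 2 * C ^ 2 / n) * (1 + 2 * C / ψ l₀)) <
      γ * (H - (C + 2 * C ^ 2 / n)) := by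
    have hp : 0 < ψ l₀ / (2 * C) := by positivity
    have hγp : 0 < γ := lt_of_lt_of_le hp hγ2
    calc ψ l₀ / (2 * C) * ((C + 2 * C ^ 2 / n) * (1 + 2 * C / ψ l₀))
        ≤ γ * ((C + 2 * C ^ 2 / n) * (1 + 2 * C / ψ l₀)) :=
          mul_le_mul_of_nonneg_right hγ2 (by positivity)
      _ < γ * (H - (C + 2 * C ^ 2 / n)) := mul_lt_mul_of_pos_left hH' hγp
  have hk2 : ψ l₀ / (2 * C) * ((C + 2 * C ^ 2 / n) * (1 + 2 * C / ψ l₀)) =
      (C + 2 * C ^ 2 / n) * (ψ l₀ / (2 * C)) + (C + 2 * C ^ 2 / n) := by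
    have hp0 : ψ l₀ ≠ 0 := hpos.ne'
    generalize ψ l₀ = w at hp0
    have hC0 : C ≠ 0 := by linarith
    field_simp
  have hp : 0 < ψ l₀ / (2 * C) := by positivity
  nlinarith [mul_pos hD hp]

/-- The edge from `x` to the apex. -/
lemma apex {x : R3} {e : R3 × R3} (hx : proj x ∉ pseg e) :
    ∀ᶠ H in atTop, convexHull ℝ {e.1, e.2, Z H} ∩ seg (x, Z H) ⊆ {Z H} := by
  set φ : R3 → ℝ := fun q => |q 0 - x 0| + |q 1 - x 1| with hφ
  have hcont : Continuous φ := by
    rw [hφ]; fun_prop
  obtain ⟨q₀, hq₀, hmin⟩ := (isCompact_seg e).exists_isMinOn ⟨e.1, left_mem_seg _⟩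
    hcont.continuousOn
  have hpos : 0 < φ q₀ := by
    by_contra hcon
    have h0 : 0 ≤ |q₀ 0 - x 0| := abs_nonneg _
    have h1 : 0 ≤ |q₀ 1 - x 1| := abs_nonneg _
    have hle : |q₀ 0 - x 0| + |q₀ 1 - x 1| ≤ 0 := not_lt.1 hcon
    have e0 := abs_eq_zero.1 (show |q₀ 0 - x 0| = 0 by linarith)
    have e1 := abs_eq_zero.1 (show |q₀ 1 - x 1| = 0 by linarith)
    exact hx ⟨q₀, hq₀, proj_eq_iff.2 ⟨by linarith, by linarith⟩⟩
  obtain ⟨C, hC1, hC⟩ := exists_bound (seg e ∪ {x}) ((isCompact_seg e).union isCompact_singleton)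
  filter_upwards [eventually_gt_atTop (C + 4 * C ^ 2 / φ q₀)] with H hH
  rintro r ⟨hr, ⟨s', s, hs', hs, hss, hrs⟩⟩
  obtain ⟨q, hq, t, ht0, ht1, hrt⟩ := mem_tri hr
  simp only at hrs
  have hs'1 : s' = 1 - s := by linarith
  subst hs'1
  simp only [Set.mem_singleton_iff]
  by_contra hrv
  have ht2 : t < 1 := by
    rcases ht1.lt_or_eq with h | h
    · exact h
    · exfalso; apply hrv; rw [hrt, h]; simp
  have hs2 : s < 1 := by
    rcases (show s ≤ 1 by linarith).lt_or_eq with h | h
    · exact h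
    · exfalso; apply hrv; rw [← hrs, h]; simp
  have hco : ∀ i, (1 - t) * q i + t * Z H i = (1 - s) * x i + s * Z H i := by
    intro i
    have h1 : r i = (1 - s) * x i + s * Z H i := by rw [← hrs]; simp
    have h2 : r i = (1 - t) * q i + t * Z H i := by
      rw [hrt]; simp
    linarith
  have c0 := hco 0
  have c1 := hco 1
  have c2 := hco 2
  simp only [Z_zero, Z_one, Z_two, mul_zero, add_zero] at c0 c1 c2
  have hq2 := hC q (Or.inl hq) 2
  have hx0 := hC x (Or.inr rfl) 0
  have hx1 := hC x (Or.inr rfl) 1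
  have hx2 := hC x (Or.inr rfl) 2
  have hCC : 0 ≤ 4 * C ^ 2 / φ q₀ := by positivity
  have hHC : C < H := by linarith
  have hxl := abs_le.1 hx2
  have hql := abs_le.1 hq2
  -- `(q i - x i) (H - x 2) = (x 2 - q 2) x i`
  have key : ∀ i, (1 - t) * q i = (1 - s) * x i → (q i - x i) * (H - x 2) = (x 2 - q 2) * x i := by
    intro i hi
    have h1 : (1 - t) * (H - q 2) = (1 - s) * (H - x 2) := by linarith
    have h2 : (1 - t) * ((q i - x i) * (H - x 2)) = (1 - t) * ((x 2 - q 2) * x i) := by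
      have : (1 - t) * ((q i - x i) * (H - x 2)) =
        ((1 - t) * q i) * (H - x 2) - (1 - t) * x i * (H - x 2) := by ring
      rw [this, hi]
      have h3 : (1 - s) * x i * (H - x 2) = x i * ((1 - s) * (H - x 2)) := by ring
      rw [h3, ← h1]; ring
    exact mul_left_cancel₀ (by linarith : (1 - t) ≠ 0) h2
  have k0 := key 0 c0
  have k1 := key 1 c1
  have hx2p : 0 < H - x 2 := by linarith
  have hbd : ∀ i, |x i| ≤ C → (q i - x i) * (H - x 2) = (x 2 - q 2) * x i →
      |q i - x i| * (H - C) ≤ 2 * C ^ 2 := by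
    intro i hi hk
    have h1 : |q i - x i| * (H - x 2) = |x 2 - q 2| * |x i| := by
      rw [← abs_mul, ← hk, abs_mul, abs_of_pos hx2p]
    have h2 : |x 2 - q 2| ≤ 2 * C := by rw [abs_le]; constructor <;> linarith
    have h3 : |x 2 - q 2| * |x i| ≤ 2 * C * C := mul_le_mul h2 hi (abs_nonneg _) (by linarith)
    have h4 : |q i - x i| * (H - C) ≤ |q i - x i| * (H - x 2) :=
      mul_le_mul_of_nonneg_left (by linarith) (abs_nonneg _)
    nlinarith
  have b0 := hbd 0 hx0 k0
  have b1 := hbd 1 hx1 k1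
  have hm : φ q₀ ≤ φ q := hmin hq
  have h3 : 4 * C ^ 2 < φ q₀ * (H - C) := by
    have : 4 * C ^ 2 / φ q₀ < H - C := by linarith
    rw [div_lt_iff₀ hpos] at this
    linarith
  have h4 : φ q₀ * (H - C) ≤ φ q * (H - C) := mul_le_mul_of_nonneg_right hm (by linarith)
  have h5 : φ q * (H - C) = |q 0 - x 0| * (H - C) + |q 1 - x 1| * (H - C) := by
    simp only [hφ]; ring
  linarith

lemma above_congr {e f e' f' : R3 × R3} (h : Above e f) (he : seg e' = seg e)
    (hf : seg f' = seg f) : Above e' f' := by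
  intro p hp q hq
  exact h p (he ▸ hp) q (hf ▸ hq)

lemma seg_swap' (a b : R3) : seg (a, b) = seg (b, a) := by
  have := seg_swap (a, b)
  exact this.symm

lemma tri_swap (a b z : R3) : ({a, b, z} : Set R3) = {b, a, z} := by
  ext p; simp only [Set.mem_insert_iff, Set.mem_singleton_iff]; tauto

/-- Two different edges of a knot. -/
lemma cone_inter {e f : R3 × R3} (he : proj e.1 ≠ proj e.2) (hf : f.1 ≠ f.2)
    (hab : Above e f) (hg : Good e f) :
    ∀ᶠ H in atTop, convexHull ℝ {e.1, e.2, Z H} ∩ seg f ⊆ ends e ∩ ends f := by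
  by_cases hd : Disjoint (seg e) (seg f)
  · filter_upwards [far hab hd] with H hH
    rintro r ⟨h1, h2⟩
    exact absurd h1 (hH r h2)
  · obtain ⟨r, hre, hrf⟩ := Set.not_disjoint_iff.1 hd
    obtain ⟨a, b⟩ := e
    obtain ⟨c, d⟩ := f
    simp only at he hf
    -- the common end is unique
    have hmid : ∀ u v : R3, u ≠ v → seg (u, v) ⊆ {u, v} → False := by
      intro u v huv hs
      have hm : (1/2 : ℝ) • u + (1/2 : ℝ) • v ∈ seg (u, v) :=
        ⟨1/2, 1/2, by norm_num, by norm_num, by norm_num, rfl⟩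
      rcases hs hm with h | h
      · apply huv
        have : (1/2 : ℝ) • (v - u) = 0 := by
          rw [show (1/2 : ℝ) • (v - u) = ((1/2 : ℝ) • u + (1/2 : ℝ) • v) - u by module, h, sub_self]
        rcases smul_eq_zero.1 this with h' | h'
        · norm_num at h'
        · exact (sub_eq_zero.1 h').symm
      · apply huv
        have : (1/2 : ℝ) • (u - v) = 0 := by
          rw [show (1/2 : ℝ) • (u - v) = ((1/2 : ℝ) • u + (1/2 : ℝ) • v) - v by module, h, sub_self]
        rcases smul_eq_zero.1 this with h' | h'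
        · norm_num at h'
        · exact sub_eq_zero.1 h'
    have key : ∀ v u w : R3, seg (v, u) = seg (a, b) → seg (v, w) = seg (c, d) →
        ends (a, b) = {v, u} → ends (c, d) = {v, w} → proj v ≠ proj u → w ≠ v →
        ({a, b} : Set R3) = {v, u} →
        ∀ᶠ H in atTop, convexHull ℝ {a, b, Z H} ∩ seg (c, d) ⊆ ends (a, b) ∩ ends (c, d) := by
      intro v u w h1 h2 h3 h4 h5 h6 h7
      have huw : u ≠ w := by
        rintro rfl
        have : seg (v, u) ⊆ {v, u} := by
          intro p hp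
          have := hg ⟨h1 ▸ hp, h2 ▸ hp⟩
          rw [h3] at this
          exact this.1
        exact hmid v u (fun h => h5 (by rw [h])) this
      have hn := near (v := v) (a := u) (b := w) h5 h6 (above_congr hab h1 h2) (by
        rintro p ⟨hp1, hp2⟩
        have := hg ⟨h1 ▸ hp1, h2 ▸ hp2⟩
        rw [h3, h4] at this
        obtain ⟨q1, q2⟩ := this
        simp only [Set.mem_insert_iff, Set.mem_singleton_iff] at q1 q2 ⊢
        rcases q1 with q1 | q1
        · exact q1
        · rcases q2 with q2 | q2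
          · exact q2
          · exact absurd (q1.symm.trans q2) huw)
      filter_upwards [hn] with H hH
      rintro p ⟨hp1, hp2⟩
      have e1 : ({a, b, Z H} : Set R3) = {v, u, Z H} := by
        have : ({a, b, Z H} : Set R3) = {a, b} ∪ {Z H} := by
          ext p; simp only [Set.mem_insert_iff, Set.mem_singleton_iff, Set.mem_union]; tauto
        rw [this, h7]
        ext p; simp only [Set.mem_insert_iff, Set.mem_singleton_iff, Set.mem_union]; tauto
      have := hH ⟨e1 ▸ hp1, h2 ▸ hp2⟩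
      simp only [Set.mem_singleton_iff] at this
      subst this
      rw [h3, h4]
      simp
    obtain ⟨g1, g2⟩ := hg ⟨hre, hrf⟩
    simp only [ends, Set.mem_insert_iff, Set.mem_singleton_iff] at g1 g2
    rcases g1 with rfl | rfl <;> rcases g2 with h2 | h2
    · subst h2
      exact key r b d rfl rfl rfl rfl he hf.symm rfl
    · subst h2
      exact key r b c rfl (seg_swap' _ _) rfl (by simp [ends, Set.pair_comm]) he hf rfl
    · subst h2
      exact key r a d (seg_swap' _ _) rfl (by simp [ends, Set.pair_comm]) rfl he.symm hf.symm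
        (by simp [Set.pair_comm])
    · subst h2
      exact key r a c (seg_swap' _ _) (seg_swap' _ _) (by simp [ends, Set.pair_comm])
        (by simp [ends, Set.pair_comm]) he.symm hf (by simp [Set.pair_comm])

lemma eventually_notMem (l : List R3) : ∀ᶠ H in atTop, Z H ∉ l := by
  have : ∀ᶠ H in atTop, ∀ p ∈ {p | p ∈ l}, Z H ≠ p := by
    rw [eventually_all_finite (List.finite_toSet l)]
    intro p hp
    filter_upwards [eventually_gt_atTop (p 2)] with H hH h
    rw [← h] at hH
    simp at hH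
  filter_upwards [this] with H hH hmem
  exact hH _ hmem rfl

/-! ### The combinatorial part -/

/-- What is needed of the apex `z`. -/
structure ConeOK (x : R3) (σ : List R3) (y : R3) (τ : List R3) (z : R3) : Prop where
  notMem : z ∉ x :: (σ ++ y :: τ)
  inter : ∀ e ∈ pathEdges (x :: (σ ++ [y])), ∀ f ∈ edges (x :: (σ ++ y :: τ)), e ≠ f →
    convexHull ℝ {e.1, e.2, z} ∩ seg f ⊆ ends e ∩ ends f
  apex : ∀ e ∈ pathEdges (σ ++ [y]), convexHull ℝ {e.1, e.2, z} ∩ seg (x, z) ⊆ {z}
  first : ∀ p ∈ (σ ++ [y]).head?, seg (x, z) ∩ seg (z, p) ⊆ {z}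

lemma path_mem_edges {x : R3} {σ : List R3} {y : R3} {τ : List R3} {e : R3 × R3}
    (he : e ∈ pathEdges (x :: (σ ++ [y]))) : e ∈ edges (x :: (σ ++ y :: τ)) := by
  have := edges_two_paths x σ y τ
  rw [List.cons_append] at this
  rw [this, List.mem_append]
  exact Or.inl he

lemma remove_all {x : R3} {σ : List R3} {y : R3} {τ : List R3} {z : R3}
    (h : IsKnot (x :: (σ ++ y :: τ))) (hz : ConeOK x σ y τ z) : ∀ (s pre : List R3),
    σ = pre ++ s → IsKnot (z :: (s ++ y :: τ ++ [x])) →
    IsKnot (z :: (y :: τ ++ [x])) ∧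
      Isotopic (z :: (s ++ y :: τ ++ [x])) (z :: (y :: τ ++ [x])) := by
  intro s
  induction s with
  | nil => intro pre _ hk; exact ⟨hk, Isotopic.refl _⟩
  | cons p s ih =>
    intro pre hσ hk
    obtain ⟨q, t, hqt, hpq⟩ : ∃ q t, s ++ y :: τ = q :: t ∧ (p, q) ∈ pathEdges (σ ++ [y]) := by
      cases s with
      | nil =>
        refine ⟨y, τ, rfl, ?_⟩
        rw [hσ, List.append_assoc, show [p] ++ [y] = p :: [y] from rfl, pathEdges_append]
        simp
      | cons q s =>
        refine ⟨q, s ++ y :: τ, rfl, ?_⟩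
        rw [hσ, List.append_assoc, List.cons_append, pathEdges_append, List.cons_append,
          pathEdges_cons_cons]
        simp
    have hpq' : (p, q) ∈ pathEdges (x :: (σ ++ [y])) := by
      rw [show x :: (σ ++ [y]) = [x] ++ (σ ++ [y]) from rfl]
      obtain ⟨a, l, hal⟩ : ∃ a l, σ ++ [y] = a :: l := by
        cases σ with
        | nil => exact ⟨y, [], rfl⟩
        | cons a l => exact ⟨a, l ++ [y], rfl⟩
      rw [hal] at hpq ⊢
      rw [pathEdges_append]
      exact List.mem_append_right _ hpq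
    have hnd := h.nodup
    rw [hσ, List.append_assoc, List.cons_append, hqt] at hnd
    have hpqt : p ∉ q :: t := by
      have h2 := (List.nodup_cons.1 hnd).2
      have h3 := (List.nodup_append.1 h2).2.1
      exact (List.nodup_cons.1 h3).1
    have hpx : p ≠ x := by
      rintro rfl
      exact (List.nodup_cons.1 hnd).1 (by simp)
    rw [List.cons_append, List.cons_append, hqt] at hk ⊢
    have hT : ∀ f ∈ pathEdges (q :: (t ++ [x]) ++ [z]),
        convexHull ℝ {z, q, p} ∩ seg f ⊆ {z, q} := by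
      intro f hf
      have hset : ({z, q, p} : Set R3) = {p, q, z} := by
        ext r; simp only [Set.mem_insert_iff, Set.mem_singleton_iff]; tauto
      rw [show q :: (t ++ [x]) ++ [z] = (q :: t) ++ x :: [z] by simp, pathEdges_append,
        List.mem_append] at hf
      rcases hf with hf | hf
      · have hfK : f ∈ edges (x :: (σ ++ y :: τ)) := by
          rw [hσ, List.append_assoc, List.cons_append, hqt, edges_cons,
            show x :: (pre ++ p :: q :: t) ++ [x] = (x :: (pre ++ [p])) ++ q :: (t ++ [x]) by simp,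
            pathEdges_append, List.mem_append]
          right
          simpa using hf
        have hfm := mem_of_mem_pathEdges hf
        have hp1 : f.1 ≠ p := by
          rintro rfl
          have := hfm.1
          simp only [List.cons_append, List.mem_cons, List.mem_append, List.not_mem_nil,
            or_false] at this hpqt
          tauto
        have hp2 : f.2 ≠ p := by
          rintro rfl
          have := hfm.2
          simp only [List.cons_append, List.mem_cons, List.mem_append, List.not_mem_nil,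
            or_false] at this hpqt
          tauto
        have hne : (p, q) ≠ f := by rintro rfl; exact hp1 rfl
        intro r hr
        have := hz.inter (p, q) hpq' f hfK hne ⟨by rw [hset] at hr; exact hr.1, hr.2⟩
        obtain ⟨h1, h2⟩ := this
        rcases h1 with h1 | h1
        · exfalso
          have h1' : r = p := h1
          rcases h2 with h2 | h2
          · exact hp1 (h2.symm.trans h1')
          · have h2' : r = f.2 := h2
            exact hp2 (h2'.symm.trans h1')
        · exact Or.inr h1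
      · simp only [pathEdges_cons_cons, pathEdges_single, List.mem_cons, List.not_mem_nil,
          or_false] at hf
        subst hf
        intro r hr
        have := hz.apex (p, q) hpq ⟨by rw [hset] at hr; exact hr.1, hr.2⟩
        exact Or.inl this
    have hrem := isotopic_remove (x := z) (y := q) (z := p) (t := t ++ [x]) hk (by simp) hT
    have hih := ih (pre ++ [p]) (by rw [hσ]; simp) (by
      rw [hqt]; exact hrem.1)
    rw [hqt] at hih
    exact ⟨hih.1, hrem.2.trans hih.2⟩

lemma to_cone {x : R3} {σ : List R3} {y : R3} {τ : List R3} {z : R3}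
    (h : IsKnot (x :: (σ ++ y :: τ))) (hz : ConeOK x σ y τ z) :
    Isotopic (x :: (σ ++ y :: τ)) (x :: z :: y :: τ) := by
  obtain ⟨p, t, hpt, hp, hxp⟩ : ∃ p t, σ ++ y :: τ = p :: t ∧ p ∈ (σ ++ [y]).head? ∧
      (x, p) ∈ pathEdges (x :: (σ ++ [y])) := by
    cases σ with
    | nil => exact ⟨y, τ, rfl, by simp, by simp⟩
    | cons p s => exact ⟨p, s ++ y :: τ, rfl, by simp, by simp⟩
  have h' := h
  rw [hpt] at h'
  have hins := isotopic_insert (x := x) (y := p) (z := z) (t := t) h'
    (by rw [← hpt]; exact hz.notMem) (by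
      intro f hf r hr
      have hfK : f ∈ edges (x :: (σ ++ y :: τ)) := by
        rw [hpt, edges_cons_cons]; exact List.mem_cons_of_mem _ hf
      have hne : (x, p) ≠ f := by
        rintro rfl
        exact h'.cons_cons_not_mem hf
      exact (hz.inter (x, p) hxp f hfK hne hr).1) (hz.first p hp)
  have hk := hins.1
  rw [← hpt] at hk hins
  have hk2 : IsKnot (z :: (σ ++ y :: τ ++ [x])) := by
    have := isKnot_append_comm (s := [x]) (t := z :: (σ ++ y :: τ)) hk
    simpa using this
  have hrem := remove_all h hz σ [] rfl hk2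
  rw [hpt]
  rw [hpt] at hins hrem
  refine hins.2.trans ?_
  refine (isotopic_append_comm [x] (z :: p :: t)).trans ?_
  have e1 : z :: p :: t ++ [x] = z :: (p :: t ++ [x]) := rfl
  rw [e1]
  refine hrem.2.trans ?_
  exact isotopic_append_comm (z :: y :: τ) [x]

lemma eventually_coneOK {x : R3} {σ : List R3} {y : R3} {τ : List R3}
    (h : IsKnot (x :: (σ ++ y :: τ))) (ho : OverArc x σ y τ) :
    ∀ᶠ H in atTop, ConeOK x σ y τ (Z H) := by
  obtain ⟨hflat, habove⟩ := ho
  rw [List.cons_append] at hflat habove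
  have hE : ∀ e ∈ edges (x :: (σ ++ y :: τ)), e.1 ≠ e.2 := by
    intro e he heq
    -- a degenerate edge would have a rotated list with a repetition
    have h2 := h.length
    have hlen := length_edges (x :: (σ ++ y :: τ))
    obtain ⟨i, hi, rfl⟩ := List.getElem_of_mem he
    rw [length_edges] at hi
    have hfst : (edges (x :: (σ ++ y :: τ)))[i].1 = (x :: (σ ++ y :: τ))[i] := by
      simp [edges]
    have hsnd : (edges (x :: (σ ++ y :: τ)))[i].2 =
        (x :: (σ ++ y :: τ))[(i + 1) % (x :: (σ ++ y :: τ)).length]'(Nat.mod_lt _ (by omega)) := by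
      simp only [edges, List.getElem_zip]
      rw [List.getElem_rotate]
    rw [hfst, hsnd] at heq
    have := (h.nodup.getElem_inj_iff).1 heq
    rcases Nat.lt_or_ge (i + 1) (x :: (σ ++ y :: τ)).length with h3 | h3
    · rw [Nat.mod_eq_of_lt h3] at this; omega
    · have h4 : i + 1 = (x :: (σ ++ y :: τ)).length := by omega
      rw [h4, Nat.mod_self] at this
      omega
  have hproj : ∀ e ∈ pathEdges (x :: (σ ++ [y])), proj e.1 ≠ proj e.2 := by
    intro e he heq
    exact hE e (path_mem_edges he) (hflat e he e he _ (left_mem_seg e) _ (right_mem_seg e) heq)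
  have hab : ∀ e ∈ pathEdges (x :: (σ ++ [y])), ∀ f ∈ edges (x :: (σ ++ y :: τ)), Above e f := by
    intro e he f hf
    have e2 := edges_two_paths x σ y τ
    rw [List.cons_append, List.cons_append] at e2
    rw [e2, List.mem_append] at hf
    rcases hf with hf | hf
    · intro p hp q hq hpq
      exact Or.inr (hflat e he f hf p hp q hq hpq)
    · exact habove e he f hf
  have h1 : ∀ᶠ H in atTop, ∀ e ∈ {e | e ∈ pathEdges (x :: (σ ++ [y]))},
      ∀ f ∈ {f | f ∈ edges (x :: (σ ++ y :: τ))}, e ≠ f →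
      convexHull ℝ {e.1, e.2, Z H} ∩ seg f ⊆ ends e ∩ ends f := by
    rw [eventually_all_finite (List.finite_toSet _)]
    intro e he
    rw [eventually_all_finite (List.finite_toSet _)]
    intro f hf
    by_cases hef : e = f
    · exact Eventually.of_forall fun H hne => absurd hef hne
    · filter_upwards [cone_inter (hproj e he) (hE f hf) (hab e he f hf)
        (h.good (path_mem_edges he) hf hef)] with H hH _
      exact hH
  have hpx : ∀ e ∈ pathEdges (σ ++ [y]), proj x ∉ pseg e := by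
    rintro e he ⟨q, hq, hqx⟩
    obtain ⟨a, l, hal⟩ : ∃ a l, σ ++ [y] = a :: l := by
      cases σ with
      | nil => exact ⟨y, [], rfl⟩
      | cons a l => exact ⟨a, l ++ [y], rfl⟩
    have he' : e ∈ pathEdges (x :: (σ ++ [y])) := by
      rw [show x :: (σ ++ [y]) = [x] ++ (σ ++ [y]) from rfl]
      rw [hal] at he ⊢
      rw [pathEdges_append]
      exact List.mem_append_right _ he
    have hxa : (x, a) ∈ pathEdges (x :: (σ ++ [y])) := by rw [hal]; simp
    have hqe : q = x := hflat e he' (x, a) hxa q hq x (left_mem_seg _) hqx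
    subst hqe
    have hm := h.mem_ends (v := q) (by simp) (path_mem_edges he') hq
    have hme := mem_of_mem_pathEdges he
    have hsub : ∀ v ∈ σ ++ [y], v ∈ σ ++ y :: τ := by
      intro v hv
      simp only [List.mem_append, List.mem_cons, List.not_mem_nil, or_false] at hv ⊢
      tauto
    have hnd := (List.nodup_cons.1 h.nodup).1
    rcases hm with hm | hm
    · exact hnd (hm ▸ hsub _ hme.1)
    · have hm' : q = e.2 := hm
      exact hnd (hm' ▸ hsub _ hme.2)
  have h2 : ∀ᶠ H in atTop, ∀ e ∈ {e | e ∈ pathEdges (σ ++ [y])},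
      convexHull ℝ {e.1, e.2, Z H} ∩ seg (x, Z H) ⊆ {Z H} := by
    rw [eventually_all_finite (List.finite_toSet _)]
    intro e he
    exact apex (hpx e he)
  have h3 : ∀ᶠ H in atTop, ∀ p ∈ (σ ++ [y]).head?, seg (x, Z H) ∩ seg (Z H, p) ⊆ {Z H} := by
    obtain ⟨a, l, hal⟩ : ∃ a l, σ ++ [y] = a :: l := by
      cases σ with
      | nil => exact ⟨y, [], rfl⟩
      | cons a l => exact ⟨a, l ++ [y], rfl⟩
    have hxa : (x, a) ∈ pathEdges (x :: (σ ++ [y])) := by rw [hal]; simp
    have hnx : proj x ∉ pseg (a, a) := by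
      rintro ⟨q, hq, hqx⟩
      have : q = a := by
        simpa [seg] using hq
      subst this
      exact hproj _ hxa hqx.symm
    filter_upwards [apex hnx] with H hH p hp
    rw [hal] at hp
    simp only [List.head?_cons, Option.mem_def, Option.some.injEq] at hp
    subst hp
    rintro r ⟨hr1, hr2⟩
    refine hH ⟨?_, hr1⟩
    have : segment ℝ (Z H) a ⊆ convexHull ℝ {(a, a).1, (a, a).2, Z H} :=
      (convex_convexHull ℝ _).segment_subset (subset_convexHull ℝ _ (by simp))
        (subset_convexHull ℝ _ (by simp))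
    exact this hr2
  filter_upwards [h1, h2, h3, eventually_notMem (x :: (σ ++ y :: τ))] with H a1 a2 a3 a4
  exact ⟨a4, a1, a2, a3⟩

end Pool.Agent.LinKnot.H74

namespace Pool.Agent.LinKnot

open Filter

theorem over_replace (x y : R3) (σ σ' τ : List R3) (h : IsKnot (x :: σ ++ y :: τ))
    (h' : IsKnot (x :: σ' ++ y :: τ)) (ho : OverArc x σ y τ) (ho' : OverArc x σ' y τ) :
    Isotopic (x :: σ ++ y :: τ) (x :: σ' ++ y :: τ) := by
  rw [List.cons_append] at h h'
  obtain ⟨H, h1, h2⟩ := ((H74.eventually_coneOK h ho).and (H74.eventually_coneOK h' ho')).exists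
  rw [List.cons_append, List.cons_append]
  exact (H74.to_cone h h1).trans (H74.to_cone h' h2).symm

/-- Reflection in the plane `z = 0`. -/
noncomputable def h74refl3 : R3 →ᵃ[ℝ] R3 :=
  (LinearMap.pi fun i => if i = 2 then - LinearMap.proj i else LinearMap.proj i :
    R3 →ₗ[ℝ] R3).toAffineMap

lemma h74refl3_apply (p : R3) (i : Fin 3) : h74refl3 p i = if i = 2 then - p i else p i := by
  unfold h74refl3
  simp only [LinearMap.coe_toAffineMap, LinearMap.pi_apply]
  split_ifs <;> rfl

lemma h74refl3_h74refl3 (p : R3) : h74refl3 (h74refl3 p) = p := by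
  ext i
  rw [h74refl3_apply, h74refl3_apply]
  split_ifs <;> simp

lemma h74refl3_injective : Function.Injective h74refl3 := fun p q h => by
  rw [← h74refl3_h74refl3 p, h, h74refl3_h74refl3]

lemma proj_h74refl3 (p : R3) : proj (h74refl3 p) = proj p := by
  rw [H74.proj_eq_iff, h74refl3_apply, h74refl3_apply]
  simp

lemma map_h74refl3_h74refl3 (l : List R3) : (l.map h74refl3).map h74refl3 = l := by
  rw [List.map_map]
  conv_rhs => rw [← List.map_id l]
  apply List.map_congr_left
  intro a _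
  exact h74refl3_h74refl3 a

lemma UnderArc.h74over {x y : R3} {σ τ : List R3} (h : UnderArc x σ y τ) :
    OverArc (h74refl3 x) (σ.map h74refl3) (h74refl3 y) (τ.map h74refl3) := by
  obtain ⟨h1, h2⟩ := h
  have e1 : h74refl3 x :: σ.map h74refl3 ++ [h74refl3 y] = (x :: σ ++ [y]).map h74refl3 := by simp
  have e2 : h74refl3 y :: τ.map h74refl3 ++ [h74refl3 x] = (y :: τ ++ [x]).map h74refl3 := by simp
  unfold OverArc FlatInj
  rw [e1, e2, pathEdges_map, pathEdges_map]
  constructor
  · intro e he f hf p hp q hq hpq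
    rw [List.mem_map] at he hf
    obtain ⟨e, he, rfl⟩ := he
    obtain ⟨f, hf, rfl⟩ := hf
    rw [seg_map] at hp hq
    obtain ⟨p, hp, rfl⟩ := hp
    obtain ⟨q, hq, rfl⟩ := hq
    rw [proj_h74refl3, proj_h74refl3] at hpq
    rw [h1 e he f hf p hp q hq hpq]
  · intro e he f hf p hp q hq hpq
    rw [List.mem_map] at he hf
    obtain ⟨e, he, rfl⟩ := he
    obtain ⟨f, hf, rfl⟩ := hf
    rw [seg_map] at hp hq
    obtain ⟨p, hp, rfl⟩ := hp
    obtain ⟨q, hq, rfl⟩ := hq
    rw [proj_h74refl3, proj_h74refl3] at hpq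
    rcases h2 e he f hf p hp q hq hpq with h | h
    · left
      rw [h74refl3_apply, h74refl3_apply]
      simpa using h
    · right; rw [h]

theorem under_replace (x y : R3) (σ σ' τ : List R3) (h : IsKnot (x :: σ ++ y :: τ))
    (h' : IsKnot (x :: σ' ++ y :: τ)) (ho : UnderArc x σ y τ) (ho' : UnderArc x σ' y τ) :
    Isotopic (x :: σ ++ y :: τ) (x :: σ' ++ y :: τ) := by
  have k1 := h.map h74refl3 h74refl3_injective
  have k2 := h'.map h74refl3 h74refl3_injective
  simp only [List.map_append, List.map_cons] at k1 k2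
  have := over_replace _ _ _ _ _ k1 k2 ho.h74over ho'.h74over
  have hm := this.map h74refl3 h74refl3_injective
  simp only [List.map_append, List.map_cons, map_h74refl3_h74refl3, h74refl3_h74refl3] at hm
  exact hm

end Pool.Agent.LinKnot
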